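import Mathlib

set_option autoImplicit false

namespace Pool.Agent.Results.MP_70010f_co.CoxeterConvexDim

open CoxeterSystem

section

variable {B W : Type*} [Group W] {M : CoxeterMatrix B} (cs : CoxeterSystem M W)

open Classical in
/-- the elementary signed permutation attached to a simple reflection -/
noncomputable def etaFun (i : B) (x : W × ZMod 2) : W × ZMod 2 :=
  (cs.simple i * x.1 * cs.simple i, x.2 + if x.1 = cs.simple i then 1 else 0)

theorem etaFun_etaFun (i : B) (x : W × ZMod 2) : etaFun cs i (etaFun cs i x) = x := by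
  obtain ⟨t, e⟩ := x
  have h2 : (2 : ZMod 2) = 0 := rfl
  unfold etaFun
  ext
  · simp [mul_assoc]
  · simp only
    by_cases h : t = cs.simple i
    · subst h
      have h11 : (1 : ZMod 2) + 1 = 0 := rfl
      simp [add_assoc, h11]
    · have h' : cs.simple i * t * cs.simple i ≠ cs.simple i := by
        intro hh
        apply h
        have := congrArg (fun y => cs.simple i * y * cs.simple i) hh
        simpa [mul_assoc] using this
      simp [h, h']

noncomputable def eta (i : B) : Equiv.Perm (W × ZMod 2) :=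
  ⟨etaFun cs i, etaFun cs i, etaFun_etaFun cs i, etaFun_etaFun cs i⟩

theorem eta_apply (i : B) (x : W × ZMod 2) : eta cs i x = etaFun cs i x := rfl

open Classical in
theorem eta_mul_pow (i j : B) (n : ℕ) (t : W) (e : ZMod 2) :
    ((eta cs i * eta cs j) ^ n) (t, e) =
      ((cs.simple i * cs.simple j) ^ n * t * ((cs.simple i * cs.simple j) ^ n)⁻¹,
        e + ∑ k ∈ Finset.range (2 * n),
          if t = cs.simple j * (cs.simple i * cs.simple j) ^ k then 1 else 0) := by
  induction n with
  | zero => simp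
  | succ n ih =>
    set ρ := cs.simple i * cs.simple j with hρ
    have hconj : ∀ m : ℕ, (ρ ^ m)⁻¹ * cs.simple j = cs.simple j * ρ ^ m := by
      intro m
      induction m with
      | zero => simp
      | succ m ihm =>
        have h1 : ρ⁻¹ * cs.simple j = cs.simple j * ρ := by
          rw [hρ]; simp [mul_assoc]
        calc (ρ ^ (m + 1))⁻¹ * cs.simple j = ρ⁻¹ * ((ρ ^ m)⁻¹ * cs.simple j) := by
              rw [pow_succ, mul_inv_rev, mul_assoc]
          _ = ρ⁻¹ * cs.simple j * ρ ^ m := by rw [ihm, mul_assoc]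
          _ = cs.simple j * ρ * ρ ^ m := by rw [h1]
          _ = cs.simple j * ρ ^ (m + 1) := by rw [pow_succ', mul_assoc]
    rw [pow_succ', Equiv.Perm.mul_apply, ih, Equiv.Perm.mul_apply, eta_apply, eta_apply]
    unfold etaFun
    simp only
    have e1 : (ρ ^ n * t * (ρ ^ n)⁻¹ = cs.simple j) ↔ t = cs.simple j * ρ ^ (2 * n) := by
      rw [mul_inv_eq_iff_eq_mul, ← eq_inv_mul_iff_mul_eq, ← mul_assoc, hconj, mul_assoc, ← pow_add,
        two_mul]
    have e2 : (cs.simple j * (ρ ^ n * t * (ρ ^ n)⁻¹) * cs.simple j = cs.simple i) ↔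
        t = cs.simple j * ρ ^ (2 * n + 1) := by
      have : (cs.simple j * (ρ ^ n * t * (ρ ^ n)⁻¹) * cs.simple j = cs.simple i) ↔
          (ρ ^ n * t * (ρ ^ n)⁻¹ = cs.simple j * ρ) := by
        rw [hρ]
        constructor
        · intro h
          have := congrArg (fun y => cs.simple j * y * cs.simple j) h
          simpa [mul_assoc] using this
        · intro h
          have := congrArg (fun y => cs.simple j * y * cs.simple j) h
          simpa [mul_assoc] using this
      rw [this, mul_inv_eq_iff_eq_mul, ← eq_inv_mul_iff_mul_eq, ← mul_assoc, ← mul_assoc, hconj]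
      constructor
      · intro h; rw [h]; simp only [mul_assoc]; rw [← pow_succ', ← pow_add]; congr 2; ring
      · intro h; rw [h]; simp only [mul_assoc]; rw [← pow_succ', ← pow_add]; congr 2; ring
    rw [show 2 * (n + 1) = 2 * n + 1 + 1 from by ring, Finset.sum_range_succ, Finset.sum_range_succ]
    ext
    · simp only
      rw [pow_succ', mul_inv_rev, hρ]
      simp [mul_assoc]
    · simp only [e1, e2]
      ring

theorem eta_liftable : M.IsLiftable (eta cs) := by
  classical
  intro i j
  ext1 ⟨t, e⟩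
  rw [eta_mul_pow, two_mul, Finset.sum_range_add]
  have h1 : (cs.simple i * cs.simple j) ^ M i j = 1 := cs.simple_mul_simple_pow i j
  have h2 : ∀ x : ZMod 2, x + x = 0 := by decide
  ext
  · simp [h1]
  · simp only [pow_add, h1, one_mul, h2, add_zero]
    rfl

/-- the signed permutation representation -/
noncomputable def Phi : W →* Equiv.Perm (W × ZMod 2) := cs.lift ⟨eta cs, eta_liftable cs⟩

theorem Phi_simple (i : B) : Phi cs (cs.simple i) = eta cs i := cs.lift_apply_simple _ i


open Classical in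
theorem Phi_apply (w : W) : ∀ (t : W) (e : ZMod 2),
    Phi cs w (t, e) = (w * t * w⁻¹, e + (Phi cs w (t, 0)).2) := by
  induction w using cs.simple_induction_left with
  | one =>
    intro t e
    simp
  | mul_simple_left w i ih =>
    intro t e
    rw [map_mul, Equiv.Perm.mul_apply, Equiv.Perm.mul_apply, ih t e, Phi_simple, eta_apply,
      eta_apply]
    have h0 := ih t 0
    have h1 : Phi cs w (t, 0) = (w * t * w⁻¹, (Phi cs w (t, 0)).2) := by
      rw [h0]
    unfold etaFun
    ext
    · simp [mul_assoc]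
    · simp only
      rw [show (Phi cs w (t, 0)).1 = w * t * w⁻¹ from by rw [h1]]
      ring

/-- left inversion indicator -/
noncomputable def D (w t : W) : ZMod 2 := (Phi cs w⁻¹ (t, 0)).2

theorem D_mul (v x t : W) : D cs (v * x) t = D cs v t + D cs x (v⁻¹ * t * v) := by
  unfold D
  rw [mul_inv_rev, map_mul, Equiv.Perm.mul_apply, Phi_apply cs v⁻¹ t 0]
  rw [Phi_apply]
  simp

theorem D_one (t : W) : D cs 1 t = 0 := by
  simp [D]

theorem D_inv (v t : W) : D cs v⁻¹ t = D cs v (v * t * v⁻¹) := by
  have h := D_mul cs v v⁻¹ (v * t * v⁻¹)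
  have h2 : ∀ x y : ZMod 2, 0 = x + y → y = x := by decide
  rw [mul_inv_cancel, D_one] at h
  have h3 : v⁻¹ * (v * t * v⁻¹) * v = t := by group
  rw [h3] at h
  exact h2 _ _ h

open Classical in
theorem D_simple (i : B) (t : W) : D cs (cs.simple i) t = if t = cs.simple i then 1 else 0 := by
  unfold D
  rw [cs.inv_simple, Phi_simple, eta_apply]
  simp [etaFun]

theorem D_self {t : W} (ht : cs.IsReflection t) : D cs t t = 1 := by
  classical
  obtain ⟨w, i, rfl⟩ := ht
  rw [D_mul, D_mul, D_inv]
  have h1 : w⁻¹ * (w * cs.simple i * w⁻¹) * w = cs.simple i := by group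
  have h2 : w * ((w * cs.simple i)⁻¹ * (w * cs.simple i * w⁻¹) * (w * cs.simple i)) * w⁻¹ =
      w * cs.simple i * w⁻¹ := by group
  rw [h1, h2, D_simple, if_pos rfl]
  have h3 : ∀ x : ZMod 2, x + 1 + x = 1 := by decide
  exact h3 _

theorem mem_leftInvSeq_of_D (ω : List B) : ∀ (t : W), D cs (cs.wordProd ω) t ≠ 0 →
    t ∈ cs.leftInvSeq ω := by
  classical
  induction ω with
  | nil => intro t h; simp [D_one] at h
  | cons i ω ih =>
    intro t h
    rw [cs.wordProd_cons, D_mul, D_simple] at h
    rw [leftInvSeq]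
    by_cases hti : t = cs.simple i
    · subst hti; simp
    · rw [if_neg hti, zero_add] at h
      have := ih _ h
      rw [List.mem_cons]
      right
      rw [List.mem_map]
      refine ⟨_, this, ?_⟩
      simp [mul_assoc]

theorem D_eq_one_iff (w : W) {t : W} (ht : cs.IsReflection t) :
    D cs w t = 1 ↔ cs.length (t * w) < cs.length w := by
  have key : ∀ w : W, D cs w t = 1 → cs.length (t * w) < cs.length w := by
    intro w h
    obtain ⟨ω, hω, rfl⟩ := cs.exists_isReduced w
    have := mem_leftInvSeq_of_D cs ω t (by rw [h]; exact one_ne_zero)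
    exact (cs.isLeftInversion_of_mem_leftInvSeq hω this).2
  constructor
  · exact key w
  · intro h
    by_contra hD
    have h2 : ∀ x : ZMod 2, x ≠ 1 → 1 + x = 1 := by decide
    have h3 : D cs (t * w) t = 1 := by
      rw [D_mul, D_self cs ht]
      have : t⁻¹ * t * t = t := by group
      rw [this]
      exact h2 _ hD
    have h4 := key _ h3
    rw [← mul_assoc, ht.mul_self, one_mul] at h4
    omega

theorem D_eq_zero_iff (w : W) {t : W} (ht : cs.IsReflection t) :
    D cs w t = 0 ↔ cs.length w < cs.length (t * w) := by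
  have h1 := D_eq_one_iff cs w ht
  have h2 : ∀ x : ZMod 2, x = 0 ↔ ¬ x = 1 := by decide
  rw [h2, h1]
  have := ht.length_mul_right_ne w
  omega

/-- `t` separates `u` and `v` iff moving `u` by `t` brings it closer to `v`. -/
theorem D_ne_iff (u v : W) {t : W} (ht : cs.IsReflection t) :
    D cs u t ≠ D cs v t ↔ cs.length (v⁻¹ * (t * u)) < cs.length (v⁻¹ * u) := by
  have h := D_mul cs v (v⁻¹ * u) t
  rw [mul_inv_cancel_left] at h
  have ht' : cs.IsReflection (v⁻¹ * t * v) := by
    have := ht.conj v⁻¹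
    simpa using this
  have h1 := D_eq_one_iff cs (v⁻¹ * u) ht'
  have h2 : ∀ x y z : ZMod 2, x = y + z → (x ≠ y ↔ z = 1) := by decide
  rw [h2 _ _ _ h, h1]
  have : v⁻¹ * t * v * (v⁻¹ * u) = v⁻¹ * (t * u) := by group
  rw [this]

/-- sets of simple reflections -/
def simples : Set W := Set.range cs.simple

theorem mem_closure_of_D {I : Set W} (hI : I ⊆ simples cs) {x : W}
    (hx : x ∈ Subgroup.closure I) : ∀ t, D cs x t ≠ 0 → t ∈ Subgroup.closure I := by
  classical
  induction hx using Subgroup.closure_induction with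
  | mem x hx =>
    intro t h
    obtain ⟨i, rfl⟩ := hI hx
    rw [D_simple] at h
    by_cases hti : t = cs.simple i
    · rw [hti]; exact Subgroup.subset_closure hx
    · simp [hti] at h
  | one => intro t h; exact absurd (D_one cs t) h
  | mul x y hx hy ihx ihy =>
    intro t h
    rw [D_mul] at h
    by_cases h1 : D cs x t = 0
    · rw [h1, zero_add] at h
      have := ihy _ h
      have h3 : t = x * (x⁻¹ * t * x) * x⁻¹ := by group
      rw [h3]
      exact Subgroup.mul_mem _ (Subgroup.mul_mem _ hx this) (Subgroup.inv_mem _ hx)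
    · exact ihx _ h1
  | inv x hx ih =>
    intro t h
    rw [D_inv] at h
    have := ih _ h
    have h3 : t = x⁻¹ * (x * t * x⁻¹) * x := by group
    rw [h3]
    exact Subgroup.mul_mem _ (Subgroup.mul_mem _ (Subgroup.inv_mem _ hx) this) hx

theorem isReflection_of_mem_simples {s : W} (hs : s ∈ simples cs) : cs.IsReflection s := by
  obtain ⟨i, rfl⟩ := hs
  exact cs.isReflection_simple i

/-- a nontrivial element of a standard parabolic subgroup has a descent in it -/
theorem exists_descent {I : Set W} (hI : I ⊆ simples cs) {x : W}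
    (hx : x ∈ Subgroup.closure I) (hx1 : x ≠ 1) : ∃ s ∈ I, D cs x s = 1 := by
  classical
  -- words over I
  have hsub : ∀ x ∈ Subgroup.closure I, ∃ l : List W, (∀ y ∈ l, y ∈ I) ∧ l.prod = x := by
    intro x hx
    induction hx using Subgroup.closure_induction with
    | mem x hx => exact ⟨[x], by simpa using hx, by simp⟩
    | one => exact ⟨[], by simp, by simp⟩
    | mul x y _ _ ihx ihy =>
      obtain ⟨l1, h1, p1⟩ := ihx
      obtain ⟨l2, h2, p2⟩ := ihy
      refine ⟨l1 ++ l2, ?_, by rw [List.prod_append, p1, p2]⟩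
      intro z hz
      rcases List.mem_append.mp hz with h | h
      · exact h1 z h
      · exact h2 z h
    | inv x _ ihx =>
      obtain ⟨l1, h1, p1⟩ := ihx
      refine ⟨(l1.map (fun y => y⁻¹)).reverse, ?_, ?_⟩
      · intro z hz
        rw [List.mem_reverse, List.mem_map] at hz
        obtain ⟨y, hy, rfl⟩ := hz
        rw [(isReflection_of_mem_simples cs (hI (h1 y hy))).inv]
        exact h1 y hy
      · rw [← p1, List.prod_inv_reverse]
  -- choose minimal length word
  have hex : ∃ n : ℕ, ∃ l : List W, l.length = n ∧ (∀ y ∈ l, y ∈ I) ∧ l.prod = x := by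
    obtain ⟨l, hl, hp⟩ := hsub x hx
    exact ⟨_, l, rfl, hl, hp⟩
  obtain ⟨l, hlen, hl, hp⟩ := Nat.find_spec hex
  have hmin : ∀ l' : List W, (∀ y ∈ l', y ∈ I) → l'.prod = x → l.length ≤ l'.length := by
    intro l' h1 h2
    rw [hlen]
    exact Nat.find_min' hex ⟨l', rfl, h1, h2⟩
  match l, hl, hp, hmin with
  | [], _, hp, _ => exact absurd hp.symm (by simpa using hx1)
  | s :: l', hl, hp, hmin =>
    have hs : s ∈ I := hl s (by simp)
    refine ⟨s, hs, ?_⟩
    have hsr := isReflection_of_mem_simples cs (hI hs)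
    have hD : D cs x s = 1 + D cs l'.prod s := by
      rw [← hp, List.prod_cons, D_mul, D_self cs hsr]
      have : s⁻¹ * s * s = s := by group
      rw [this]
    by_contra hne
    have h2 : ∀ x y : ZMod 2, x = 1 + y → x ≠ 1 → y ≠ 0 := by decide
    have h3 : D cs l'.prod s ≠ 0 := h2 _ _ hD hne
    -- exchange: s * l'.prod = product of shorter list
    have hexch : ∀ (m : List W), (∀ y ∈ m, y ∈ I) → ∀ t, D cs m.prod t ≠ 0 →
        ∃ m' : List W, (∀ y ∈ m', y ∈ I) ∧ m'.length < m.length ∧ t * m.prod = m'.prod := by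
      intro m
      induction m with
      | nil => intro _ t h; simp [D_one] at h
      | cons y m ih =>
        intro hm t h
        have hy : y ∈ I := hm y (by simp)
        have hyr := isReflection_of_mem_simples cs (hI hy)
        rw [List.prod_cons, D_mul] at h
        by_cases hty : t = y
        · refine ⟨m, fun z hz => hm z (by simp [hz]), by simp, ?_⟩
          rw [List.prod_cons, hty, ← mul_assoc, hyr.mul_self, one_mul]
        · have h0 : D cs y t = 0 := by
            obtain ⟨i, rfl⟩ := hI hy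
            rw [D_simple, if_neg hty]
          rw [h0, zero_add] at h
          obtain ⟨m', hm', hlen', hprod'⟩ := ih (fun z hz => hm z (by simp [hz])) _ h
          refine ⟨y :: m', ?_, ?_, ?_⟩
          · intro z hz
            rcases List.mem_cons.mp hz with rfl | hz
            · exact hy
            · exact hm' z hz
          · simpa using hlen'
          · rw [List.prod_cons, List.prod_cons, ← hprod']
            group
    obtain ⟨m', hm', hlen', hprod'⟩ := hexch l' (fun z hz => hl z (by simp [hz])) s h3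
    have := hmin m' hm' (by rw [← hprod', ← hp, List.prod_cons])
    simp at this
    omega

theorem mem_of_simple_mem_closure {I : Set W} (hI : I ⊆ simples cs) {s : W}
    (hs : s ∈ simples cs) (h : s ∈ Subgroup.closure I) : s ∈ I := by
  classical
  obtain ⟨i, rfl⟩ := hs
  have hne : cs.simple i ≠ 1 := by
    intro h1
    have := cs.length_simple i
    rw [h1] at this
    simp at this
  obtain ⟨s, hsI, hD⟩ := exists_descent cs hI h hne
  rw [D_simple] at hD
  by_cases h1 : s = cs.simple i
  · rw [← h1]; exact hsI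
  · simp [h1] at hD


/-! ### the Coxeter complex (the definitions used in the statement) -/

/-- A set of chambers (elements of `W`) is a nonempty simplex of the Coxeter complex if it is a
coset `w W_I` of a standard parabolic subgroup `W_I`, with `I` a proper subset of `S`. -/
def IsSimplex (σ : Set W) : Prop :=
  ∃ (w : W) (I : Set W), I ⊂ simples cs ∧ σ = {x | w⁻¹ * x ∈ Subgroup.closure I}

/-- The nonempty simplices of the Coxeter complex; `chambers` is the coset. -/
structure Simplex where
  chambers : Set W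
  isSimplex : IsSimplex cs chambers

variable {cs} in
theorem Simplex.ext' {σ τ : Simplex cs} (h : σ.chambers = τ.chambers) : σ = τ := by
  cases σ; cases τ; cases h; rfl

/-- Face relation: `σ ≤ τ` (`σ` is a face of `τ`) iff the coset of `τ` is contained in the coset
of `σ`. -/
instance : PartialOrder (Simplex cs) where
  le σ τ := τ.chambers ⊆ σ.chambers
  le_refl σ := Set.Subset.refl _
  le_trans σ τ ρ h1 h2 := Set.Subset.trans h2 h1
  le_antisymm σ τ h1 h2 := Simplex.ext' (Set.Subset.antisymm h2 h1)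

theorem le_def (σ τ : Simplex cs) : σ ≤ τ ↔ τ.chambers ⊆ σ.chambers := Iff.rfl

/-- The root (closed half of the complex) of the reflection `t`: all simplices that are faces of a
chamber `v` on the given side of the wall of `t`; the side `pos = true` is the one that contains
the fundamental chamber `1`. -/
def root (t : W) (pos : Bool) : Set (Simplex cs) :=
  {σ | ∃ v ∈ σ.chambers,
    if pos = true then cs.length v < cs.length (t * v) else cs.length (t * v) < cs.length v}

/-- A subcomplex is convex if it is an intersection of roots. -/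
def IsConvex (C : Set (Simplex cs)) : Prop :=
  ∃ A : Set (W × Bool), (∀ a ∈ A, cs.IsReflection a.1) ∧ C = {σ | ∀ a ∈ A, σ ∈ root cs a.1 a.2}

/-- The poset `Y(Σ)` of nonempty convex subcomplexes, ordered by inclusion. -/
abbrev ConvexSubcomplex := {C : Set (Simplex cs) // C.Nonempty ∧ IsConvex cs C}

/-! ### basic facts -/

theorem mem_root_iff {t : W} (ht : cs.IsReflection t) (b : Bool) (σ : Simplex cs) :
    σ ∈ root cs t b ↔ ∃ v ∈ σ.chambers, D cs v t = if b then 0 else 1 := by
  unfold root
  cases b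
  · simp only [Set.mem_ofPred_eq, Bool.false_eq_true, if_false]
    constructor
    · rintro ⟨v, hv, h⟩; exact ⟨v, hv, (D_eq_one_iff cs v ht).mpr h⟩
    · rintro ⟨v, hv, h⟩; exact ⟨v, hv, (D_eq_one_iff cs v ht).mp h⟩
  · simp only [Set.mem_ofPred_eq, if_true]
    constructor
    · rintro ⟨v, hv, h⟩; exact ⟨v, hv, (D_eq_zero_iff cs v ht).mpr h⟩
    · rintro ⟨v, hv, h⟩; exact ⟨v, hv, (D_eq_zero_iff cs v ht).mp h⟩

/-- the coset `w W_I` as a set -/
def coset (w : W) (I : Set W) : Set W := {x | w⁻¹ * x ∈ Subgroup.closure I}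

theorem mem_coset_self (w : W) (I : Set W) : w ∈ coset w I := by
  simp [coset, Subgroup.one_mem]

theorem coset_eq {w u : W} {I : Set W} (h : u ∈ coset w I) : coset w I = coset u I := by
  unfold coset at *
  ext x
  simp only [Set.mem_ofPred_eq] at *
  constructor
  · intro hx
    have : u⁻¹ * x = (w⁻¹ * u)⁻¹ * (w⁻¹ * x) := by group
    rw [this]; exact Subgroup.mul_mem _ (Subgroup.inv_mem _ h) hx
  · intro hx
    have : w⁻¹ * x = (w⁻¹ * u) * (u⁻¹ * x) := by group
    rw [this]; exact Subgroup.mul_mem _ h hx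

theorem Simplex.exists_coset {σ : Simplex cs} {u : W} (hu : u ∈ σ.chambers) :
    ∃ I, I ⊂ simples cs ∧ σ.chambers = coset u I := by
  obtain ⟨w, I, hI, h⟩ := σ.isSimplex
  refine ⟨I, hI, ?_⟩
  have : σ.chambers = coset w I := h
  rw [this] at hu ⊢
  exact coset_eq hu

theorem Simplex.nonempty (σ : Simplex cs) : σ.chambers.Nonempty := by
  obtain ⟨w, I, hI, h⟩ := σ.isSimplex
  refine ⟨w, ?_⟩
  rw [h]
  exact mem_coset_self w I

/-- simplex from a coset -/
def mkSimplex (w : W) (I : Set W) (hI : I ⊂ simples cs) : Simplex cs :=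
  ⟨coset w I, w, I, hI, rfl⟩

/-- the type of a simplex: the simple reflections `s` with `v s ∈ σ` for some `v ∈ σ` -/
def typ (σ : Simplex cs) : Set W := {s | s ∈ simples cs ∧ ∃ v ∈ σ.chambers, v * s ∈ σ.chambers}

theorem typ_eq (σ : Simplex cs) {u : W} {I : Set W} (hI : I ⊆ simples cs)
    (h : σ.chambers = coset u I) : typ cs σ = I := by
  unfold typ
  rw [h]
  unfold coset
  ext s
  simp only [Set.mem_ofPred_eq]
  constructor
  · rintro ⟨hs, v, hv, hvs⟩
    apply mem_of_simple_mem_closure cs hI hs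
    have : s = (u⁻¹ * v)⁻¹ * (u⁻¹ * (v * s)) := by group
    rw [this]; exact Subgroup.mul_mem _ (Subgroup.inv_mem _ hv) hvs
  · intro hs
    refine ⟨hI hs, u, by simp [Subgroup.one_mem], ?_⟩
    simpa using Subgroup.subset_closure hs

theorem typ_ssubset (σ : Simplex cs) : typ cs σ ⊂ simples cs := by
  obtain ⟨w, I, hI, h⟩ := σ.isSimplex
  rw [typ_eq cs σ hI.subset h]
  exact hI

theorem chambers_eq_coset_typ (σ : Simplex cs) {u : W} (hu : u ∈ σ.chambers) :
    σ.chambers = coset u (typ cs σ) := by
  obtain ⟨I, hI, h⟩ := Simplex.exists_coset cs hu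
  rw [typ_eq cs σ hI.subset h]
  exact h

theorem typ_lt {σ τ : Simplex cs} (h : σ < τ) : typ cs τ ⊂ typ cs σ := by
  have hle : τ.chambers ⊆ σ.chambers := h.le
  have hsub : typ cs τ ⊆ typ cs σ := by
    rintro s ⟨hs, v, hv, hvs⟩
    exact ⟨hs, v, hle hv, hle hvs⟩
  refine ⟨hsub, ?_⟩
  intro hcon
  apply h.ne
  obtain ⟨u, hu⟩ := Simplex.nonempty cs τ
  apply Simplex.ext'
  rw [chambers_eq_coset_typ cs σ (hle hu), chambers_eq_coset_typ cs τ hu,
    Set.Subset.antisymm hsub hcon]

variable [Finite W]

/-- the dimension `|S \ I| - 1` of a simplex of type `I` -/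
noncomputable def dm (σ : Simplex cs) : ℕ := (simples cs \ typ cs σ).ncard - 1

theorem ncard_pos (σ : Simplex cs) : 0 < (simples cs \ typ cs σ).ncard := by
  have h := typ_ssubset cs σ
  rw [Set.ncard_pos (Set.toFinite _)]
  obtain ⟨x, hx, hx'⟩ := Set.exists_of_ssubset h
  exact ⟨x, hx, hx'⟩

theorem dm_lt {σ τ : Simplex cs} (h : σ < τ) : dm cs σ < dm cs τ := by
  have h1 := typ_lt cs h
  have h2 : simples cs \ typ cs σ ⊂ simples cs \ typ cs τ := by
    constructor
    · exact Set.sdiff_subset_sdiff_right h1.subset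
    · intro hcon
      obtain ⟨x, hx, hx'⟩ := Set.exists_of_ssubset h1
      have : x ∈ simples cs \ typ cs τ := ⟨(typ_ssubset cs σ).subset hx, hx'⟩
      exact (hcon this).2 hx
  have h3 := Set.ncard_lt_ncard h2 (Set.toFinite _)
  have h4 := ncard_pos cs σ
  unfold dm
  omega

theorem dm_le (σ : Simplex cs) : dm cs σ ≤ (simples cs).ncard - 1 := by
  unfold dm
  have : (simples cs \ typ cs σ).ncard ≤ (simples cs).ncard :=
    Set.ncard_le_ncard Set.sdiff_subset (Set.toFinite _)
  omega

theorem simples_ncard_pos (σ : Simplex cs) : 0 < (simples cs).ncard := by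
  have h1 := ncard_pos cs σ
  have : (simples cs \ typ cs σ).ncard ≤ (simples cs).ncard :=
    Set.ncard_le_ncard Set.sdiff_subset (Set.toFinite _)
  omega

/-! ### the key extension lemma -/

omit [Finite W] in
theorem sep_of_stab {u w : W} {I : Set W} {t : W} (ht : cs.IsReflection t)
    (h : w * u ∈ coset u I ∧ w = t) : D cs (w * u) t ≠ D cs u t := by
  obtain ⟨_, rfl⟩ := h
  rw [D_mul, D_self cs ht]
  have : w⁻¹ * w * w = w := by group
  rw [this]
  have h3 : ∀ x : ZMod 2, 1 + x ≠ x := by decide
  exact h3 _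

omit [Finite W] in
theorem stab_of_sep {u v v' : W} {I : Set W} (hI : I ⊆ simples cs) {t : W}
    (hv : v ∈ coset u I) (hv' : v' ∈ coset u I) (h : D cs v t ≠ D cs v' t) :
    u⁻¹ * t * u ∈ Subgroup.closure I := by
  have h1 := D_mul cs v (v⁻¹ * v') t
  rw [mul_inv_cancel_left] at h1
  have h2 : ∀ x y z : ZMod 2, x = y + z → y ≠ x → z ≠ 0 := by decide
  have h3 := h2 _ _ _ h1 h
  unfold coset at hv hv'
  simp only [Set.mem_ofPred_eq] at hv hv'
  have h4 : v⁻¹ * v' ∈ Subgroup.closure I := by
    have : v⁻¹ * v' = (u⁻¹ * v)⁻¹ * (u⁻¹ * v') := by group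
    rw [this]; exact Subgroup.mul_mem _ (Subgroup.inv_mem _ hv) hv'
  have h5 := mem_closure_of_D cs hI h4 _ h3
  have : u⁻¹ * t * u = (u⁻¹ * v) * (v⁻¹ * t * v) * (u⁻¹ * v)⁻¹ := by group
  rw [this]
  exact Subgroup.mul_mem _ (Subgroup.mul_mem _ hv h5) (Subgroup.inv_mem _ hv)

/-- Intersection of two parabolic subgroups, seen from a pair of chambers not separated by
reflections of the first one. -/
theorem kilmoyer {u v : W} {I J : Set W} (hI : I ⊆ simples cs) (hJ : J ⊆ simples cs)
    (hsep : ∀ r, cs.IsReflection r → u⁻¹ * r * u ∈ Subgroup.closure I → D cs u r = D cs v r) :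
    ∀ (n : ℕ) (y : W), cs.length y = n → y ∈ Subgroup.closure I →
      v⁻¹ * (u * y * u⁻¹) * v ∈ Subgroup.closure J →
      y ∈ Subgroup.closure {s | s ∈ I ∧ v⁻¹ * (u * s * u⁻¹) * v ∈ Subgroup.closure J} := by
  intro n
  induction n using Nat.strong_induction_on with
  | _ n ih =>
    intro y hn hy hyJ
    by_cases hy1 : y = 1
    · rw [hy1]; exact Subgroup.one_mem _
    obtain ⟨s, hs, hDs⟩ := exists_descent cs hI hy hy1
    have hsr := isReflection_of_mem_simples cs (hI hs)
    set g := u * y * u⁻¹ with hg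
    set r := u * s * u⁻¹ with hr
    have hrr : cs.IsReflection r := hsr.conj u
    -- D (g u) r = D u r + 1
    have e1 : D cs (g * u) r = D cs u r + 1 := by
      have : g * u = u * y := by rw [hg]; group
      rw [this, D_mul]
      have : u⁻¹ * r * u = s := by rw [hr]; group
      rw [this, hDs]
    have hsC : s ∈ Subgroup.closure I := Subgroup.subset_closure hs
    have e2 : D cs u r = D cs v r := by
      apply hsep r hrr
      have : u⁻¹ * r * u = s := by rw [hr]; group
      rw [this]; exact hsC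
    -- g⁻¹ r g does not separate u and v
    have e3 : D cs u (g⁻¹ * r * g) = D cs v (g⁻¹ * r * g) := by
      apply hsep
      · have := hrr.conj g⁻¹
        simpa using this
      · have : u⁻¹ * (g⁻¹ * r * g) * u = y⁻¹ * s * y := by rw [hg, hr]; group
        rw [this]
        exact Subgroup.mul_mem _ (Subgroup.mul_mem _ (Subgroup.inv_mem _ hy) hsC) hy
    have e4 : D cs (g * u) r = D cs (g * v) r := by
      rw [D_mul cs g u r, D_mul cs g v r, e3]
    -- so D z (v⁻¹ r v) = 1, where g v = v z
    have e5 : D cs (v⁻¹ * g * v) (v⁻¹ * r * v) = 1 := by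
      have h1 := D_mul cs v (v⁻¹ * g * v) r
      have : v * (v⁻¹ * g * v) = g * v := by group
      rw [this, ← e4, e1, e2] at h1
      have h2 : ∀ x y : ZMod 2, x + 1 = x + y → y = 1 := by decide
      exact h2 _ _ h1
    have e6 : v⁻¹ * r * v ∈ Subgroup.closure J :=
      mem_closure_of_D cs hJ hyJ _ (by rw [e5]; exact one_ne_zero)
    have hlen : cs.length (s * y) < n := by
      rw [← hn]; exact (D_eq_one_iff cs y hsr).mp hDs
    have e7 := ih _ hlen (s * y) rfl (Subgroup.mul_mem _ hsC hy) (by
      have : v⁻¹ * (u * (s * y) * u⁻¹) * v = (v⁻¹ * r * v) * (v⁻¹ * g * v) := by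
        rw [hg, hr]; group
      rw [this]
      exact Subgroup.mul_mem _ e6 hyJ)
    have e8 : y = s * (s * y) := by rw [← mul_assoc, hsr.mul_self, one_mul]
    rw [e8]
    exact Subgroup.mul_mem _ (Subgroup.subset_closure ⟨hs, e6⟩) e7


omit [Finite W] in
/-- coset membership after left multiplication by a stabilising element -/
theorem mul_mem_coset {u t : W} {I : Set W} (h : u⁻¹ * t * u ∈ Subgroup.closure I) :
    t * u ∈ coset u I := by
  unfold coset
  show u⁻¹ * (t * u) ∈ Subgroup.closure I
  rw [← mul_assoc]; exact h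

omit [Finite W] in
theorem D_mul_self_ne {u t : W} (ht : cs.IsReflection t) : D cs (t * u) t ≠ D cs u t := by
  rw [D_mul, D_self cs ht]
  have : t⁻¹ * t * t = t := by group
  rw [this]
  have h3 : ∀ x : ZMod 2, 1 + x ≠ x := by decide
  exact h3 _

/-- If `σ` lies in a wall not containing `τ`, and both lie in a convex subcomplex, then some
simplex of the subcomplex is strictly larger than `σ`. -/
theorem extend_simplex {A : Set (W × Bool)} (hA : ∀ a ∈ A, cs.IsReflection a.1)
    {σ τ : Simplex cs} (hσ : ∀ a ∈ A, σ ∈ root cs a.1 a.2) (hτ : ∀ a ∈ A, τ ∈ root cs a.1 a.2)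
    {t : W} (ht : cs.IsReflection t) (hσt : σ ∈ root cs t true ∧ σ ∈ root cs t false)
    (b : Bool) (hτt : τ ∉ root cs t b) :
    ∃ ρ : Simplex cs, (∀ a ∈ A, ρ ∈ root cs a.1 a.2) ∧ σ < ρ := by
  classical
  -- a closest pair
  have hex : ∃ n : ℕ, ∃ u ∈ σ.chambers, ∃ v ∈ τ.chambers, cs.length (v⁻¹ * u) = n := by
    obtain ⟨u, hu⟩ := Simplex.nonempty cs σ
    obtain ⟨v, hv⟩ := Simplex.nonempty cs τ
    exact ⟨_, u, hu, v, hv, rfl⟩
  obtain ⟨u, hu, v, hv, hlen⟩ := Nat.find_spec hex
  have hmin : ∀ u' ∈ σ.chambers, ∀ v' ∈ τ.chambers,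
      cs.length (v⁻¹ * u) ≤ cs.length (v'⁻¹ * u') := by
    intro u' hu' v' hv'
    rw [hlen]
    exact Nat.find_min' hex ⟨u', hu', v', hv', rfl⟩
  obtain ⟨I, hI, hσI⟩ := Simplex.exists_coset cs hu
  obtain ⟨J, hJ, hτJ⟩ := Simplex.exists_coset cs hv
  -- reflections in the stabiliser of σ do not separate u and v
  have hsep : ∀ r, cs.IsReflection r → u⁻¹ * r * u ∈ Subgroup.closure I →
      D cs u r = D cs v r := by
    intro r hr hrI
    by_contra hne
    have h1 := (D_ne_iff cs u v hr).mp hne
    have h2 : r * u ∈ σ.chambers := by rw [hσI]; exact mul_mem_coset hrI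
    have := hmin _ h2 v hv
    omega
  set K : Set W := {s | s ∈ I ∧ v⁻¹ * (u * s * u⁻¹) * v ∈ Subgroup.closure J} with hK
  have hKI : K ⊆ I := fun s hs => hs.1
  -- t stabilises σ but not τ
  have htI : u⁻¹ * t * u ∈ Subgroup.closure I := by
    obtain ⟨⟨x, hx, hDx⟩, ⟨y, hy, hDy⟩⟩ :=
      (⟨(mem_root_iff cs ht true σ).mp hσt.1, (mem_root_iff cs ht false σ).mp hσt.2⟩ : _ ∧ _)
    apply stab_of_sep cs hI.subset (hσI ▸ hx) (hσI ▸ hy)
    rw [hDx, hDy]; simp
  have htJ : v⁻¹ * t * v ∉ Subgroup.closure J := by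
    intro hcon
    apply hτt
    rw [mem_root_iff cs ht]
    have h1 : t * v ∈ τ.chambers := by rw [hτJ]; exact mul_mem_coset hcon
    have h2 := D_mul_self_ne cs (u := v) ht
    have h3 : ∀ x y z : ZMod 2, x ≠ y → x = z ∨ y = z := by decide
    rcases h3 _ _ (if b then 0 else 1) h2 with h | h
    · exact ⟨_, h1, h⟩
    · exact ⟨_, hv, h⟩
  have hKne : K ≠ I := by
    intro hKI'
    apply htJ
    -- map closure I
    have h1 : ∀ y ∈ Subgroup.closure I, v⁻¹ * (u * y * u⁻¹) * v ∈ Subgroup.closure J := by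
      intro y hy
      induction hy using Subgroup.closure_induction with
      | mem x hx => rw [← hKI'] at hx; exact hx.2
      | one => simp [Subgroup.one_mem]
      | mul x y _ _ ihx ihy =>
        have : v⁻¹ * (u * (x * y) * u⁻¹) * v =
            (v⁻¹ * (u * x * u⁻¹) * v) * (v⁻¹ * (u * y * u⁻¹) * v) := by group
        rw [this]; exact Subgroup.mul_mem _ ihx ihy
      | inv x _ ihx =>
        have : v⁻¹ * (u * x⁻¹ * u⁻¹) * v = (v⁻¹ * (u * x * u⁻¹) * v)⁻¹ := by group
        rw [this]; exact Subgroup.inv_mem _ ihx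
    have h2 := h1 _ htI
    have : v⁻¹ * (u * (u⁻¹ * t * u) * u⁻¹) * v = v⁻¹ * t * v := by group
    rwa [this] at h2
  have hKss : K ⊂ simples cs := ⟨hKI.trans hI.subset, fun h => hI.2 (h.trans hKI)⟩
  refine ⟨mkSimplex cs u K hKss, ?_, ?_⟩
  · -- ρ in every root of A
    intro a ha
    have har := hA a ha
    rw [mem_root_iff cs har]
    by_cases hua : D cs u a.1 = if a.2 then 0 else 1
    · exact ⟨u, mem_coset_self u K, hua⟩
    · -- a.1 stabilises σ
      obtain ⟨x, hx, hDx⟩ := (mem_root_iff cs har a.2 σ).mp (hσ a ha)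
      have haI : u⁻¹ * a.1 * u ∈ Subgroup.closure I := by
        apply stab_of_sep cs hI.subset (hσI ▸ hx) (hσI ▸ hu)
        rw [hDx]; exact fun h => hua h.symm
      have hva : D cs v a.1 ≠ if a.2 then 0 else 1 := by
        rw [← hsep _ har haI]; exact hua
      obtain ⟨y, hy, hDy⟩ := (mem_root_iff cs har a.2 τ).mp (hτ a ha)
      have haJ : v⁻¹ * a.1 * v ∈ Subgroup.closure J := by
        apply stab_of_sep cs hJ.subset (hτJ ▸ hy) (hτJ ▸ hv)
        rw [hDy]; exact fun h => hva h.symm
      have hk := kilmoyer cs hI.subset hJ.subset hsep _ (u⁻¹ * a.1 * u) rfl haI (by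
        have : v⁻¹ * (u * (u⁻¹ * a.1 * u) * u⁻¹) * v = v⁻¹ * a.1 * v := by group
        rw [this]; exact haJ)
      refine ⟨a.1 * u, mul_mem_coset hk, ?_⟩
      have h2 := D_mul_self_ne cs (u := u) har
      have h3 : ∀ x y z : ZMod 2, x ≠ y → y ≠ z → x = z := by decide
      exact h3 _ _ _ h2 hua
  · -- σ < ρ
    have hle : σ ≤ mkSimplex cs u K hKss := by
      show coset u K ⊆ σ.chambers
      rw [hσI]
      intro x hx
      exact Subgroup.closure_mono hKI hx
    refine lt_of_le_of_ne hle ?_
    intro heq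
    apply hKne
    have h1 : typ cs σ = I := typ_eq cs σ hI.subset hσI
    have h2 : typ cs σ = K := typ_eq cs σ hKss.subset (by rw [heq]; rfl)
    rw [← h1, ← h2]

/-! ### the upper bound -/

/-- the reflections whose wall strictly cuts `C` -/
def cutset (C : Set (Simplex cs)) : Set W :=
  {t | cs.IsReflection t ∧ ¬ C ⊆ root cs t true ∧ ¬ C ⊆ root cs t false}

/-- dimension of a set of simplices -/
noncomputable def dimC (C : Set (Simplex cs)) : ℕ := sSup (dm cs '' C)

theorem bddAbove_dm (C : Set (Simplex cs)) : BddAbove (dm cs '' C) :=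
  ⟨(simples cs).ncard - 1, by rintro _ ⟨σ, _, rfl⟩; exact dm_le cs σ⟩

theorem dm_le_dimC {C : Set (Simplex cs)} {σ : Simplex cs} (h : σ ∈ C) : dm cs σ ≤ dimC cs C :=
  le_csSup (bddAbove_dm cs C) ⟨σ, h, rfl⟩

theorem exists_dimC {C : Set (Simplex cs)} (h : C.Nonempty) : ∃ σ ∈ C, dm cs σ = dimC cs C := by
  have := Nat.sSup_mem (h.image (dm cs)) (bddAbove_dm cs C)
  obtain ⟨σ, hσ, he⟩ := this
  exact ⟨σ, hσ, he⟩

noncomputable def pot (C : Set (Simplex cs)) : ℕ := dimC cs C + (cutset cs C).ncard

theorem pot_lt {C' C : ConvexSubcomplex cs} (h : C' < C) : pot cs C'.1 < pot cs C.1 := by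
  obtain ⟨C', hne', A', hA', hC'⟩ := C'
  obtain ⟨C, hne, A, hA, hC⟩ := C
  have hsub : C' ⊆ C := h.le
  have hnot : ¬ C ⊆ C' := fun hh => h.not_ge hh
  simp only
  have hdim : dimC cs C' ≤ dimC cs C := by
    obtain ⟨σ, hσ, he⟩ := exists_dimC cs hne'
    rw [← he]; exact dm_le_dimC cs (hsub hσ)
  have hcut : cutset cs C' ⊆ cutset cs C := by
    rintro t ⟨ht, h1, h2⟩
    exact ⟨ht, fun hh => h1 (hsub.trans hh), fun hh => h2 (hsub.trans hh)⟩
  have hcutle : (cutset cs C').ncard ≤ (cutset cs C).ncard :=
    Set.ncard_le_ncard hcut (Set.toFinite _)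
  -- a root separating
  obtain ⟨τ, hτC, hτC'⟩ := Set.not_subset.mp hnot
  have hτ : ∃ a ∈ A', τ ∉ root cs a.1 a.2 := by
    by_contra hcon
    push Not at hcon
    apply hτC'
    rw [hC']
    exact hcon
  obtain ⟨⟨t, b⟩, ha, hτa⟩ := hτ
  simp only at hτa
  have ht : cs.IsReflection t := hA' _ ha
  have hC'a : C' ⊆ root cs t b := by
    intro x hx
    rw [hC'] at hx
    exact hx _ ha
  by_cases hcase : C ⊆ root cs t (!b)
  · -- C in the opposite root; dimension drops
    have hlt : dimC cs C' < dimC cs C := by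
      obtain ⟨σ, hσ, he⟩ := exists_dimC cs hne'
      have hσt : σ ∈ root cs t true ∧ σ ∈ root cs t false := by
        have h1 := hC'a hσ
        have h2 := hcase (hsub hσ)
        cases b
        · exact ⟨h2, h1⟩
        · exact ⟨h1, h2⟩
      have hσA : ∀ a ∈ A, σ ∈ root cs a.1 a.2 := by
        have := hsub hσ
        rw [hC] at this; exact this
      have hτA : ∀ a ∈ A, τ ∈ root cs a.1 a.2 := by
        rw [hC] at hτC; exact hτC
      obtain ⟨ρ, hρ, hlt⟩ := extend_simplex cs hA hσA hτA ht hσt b hτa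
      have hρC : ρ ∈ C := by rw [hC]; exact hρ
      have h1 := dm_lt cs hlt
      have h2 := dm_le_dimC cs hρC
      omega
    unfold pot
    omega
  · -- t cuts C strictly but not C'
    have hmem : t ∈ cutset cs C := by
      refine ⟨ht, ?_, ?_⟩
      · intro hh
        cases b
        · exact hcase hh
        · exact hτa (hh hτC)
      · intro hh
        cases b
        · exact hτa (hh hτC)
        · exact hcase hh
    have hnmem : t ∉ cutset cs C' := by
      rintro ⟨_, h1, h2⟩
      cases b
      · exact h2 hC'a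
      · exact h1 hC'a
    have hlt : (cutset cs C').ncard < (cutset cs C).ncard :=
      Set.ncard_lt_ncard ⟨hcut, fun hh => hnmem (hh hmem)⟩ (Set.toFinite _)
    unfold pot
    omega

theorem pot_le (C : ConvexSubcomplex cs) :
    pot cs C.1 ≤ ((simples cs).ncard - 1) + Nat.card {t : W // cs.IsReflection t} := by
  unfold pot
  have h1 : dimC cs C.1 ≤ (simples cs).ncard - 1 := by
    obtain ⟨σ, hσ, he⟩ := exists_dimC cs C.2.1
    rw [← he]; exact dm_le cs σ
  have h2 : (cutset cs C.1).ncard ≤ Nat.card {t : W // cs.IsReflection t} := by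
    have : cutset cs C.1 ⊆ {t : W | cs.IsReflection t} := fun t ht => ht.1
    have h3 := Set.ncard_le_ncard this (Set.toFinite _)
    exact h3
  omega

theorem krullDim_le_of_nat {α : Type*} [Preorder α] (f : α → ℕ) (hf : StrictMono f) (K : ℕ)
    (hK : ∀ a, f a ≤ K) : Order.krullDim α ≤ (K : WithBot ℕ∞) := by
  apply iSup_le
  intro p
  have h1 := LTSeries.head_add_length_le_nat (p.map f hf)
  have h2 : (p.map f hf).last = f p.last := rfl
  have h3 : (p.map f hf).length = p.length := rfl
  have h4 := hK p.last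
  have h5 : p.length ≤ K := by omega
  exact_mod_cast h5

theorem upper : Order.krullDim (ConvexSubcomplex cs) ≤
    ((((simples cs).ncard - 1) + Nat.card {t : W // cs.IsReflection t} : ℕ) : WithBot ℕ∞) :=
  krullDim_le_of_nat (fun C => pot cs C.1) (fun _ _ h => pot_lt cs h) _ (fun C => pot_le cs C)

theorem dim_le : Order.krullDim (Simplex cs) ≤ (((simples cs).ncard - 1 : ℕ) : WithBot ℕ∞) :=
  krullDim_le_of_nat (dm cs) (fun _ _ h => dm_lt cs h) _ (dm_le cs)


/-! ### the lower bound -/

omit [Finite W] in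
/-- constructor for convex subcomplexes -/
def mkConvex (A : Set (W × Bool)) (hA : ∀ a ∈ A, cs.IsReflection a.1)
    (hne : ∃ σ : Simplex cs, ∀ a ∈ A, σ ∈ root cs a.1 a.2) : ConvexSubcomplex cs :=
  ⟨{σ | ∀ a ∈ A, σ ∈ root cs a.1 a.2}, hne, A, hA, rfl⟩

/-- roots defining the face `F_I` of the fundamental chamber -/
def faceRoots (I : Set W) : Set (W × Bool) :=
  {a | cs.IsReflection a.1 ∧ (a.2 = false → a.1 ∈ I)}

omit [Finite W] in
theorem mk_mem_faceRoots {I : Set W} (hI : I ⊂ simples cs) :
    ∀ a ∈ faceRoots cs I, mkSimplex cs 1 I hI ∈ root cs a.1 a.2 := by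
  rintro ⟨t, b⟩ ⟨ht, hb⟩
  simp only at ht hb
  rw [mem_root_iff cs ht]
  cases b
  · have htI : t ∈ I := hb rfl
    refine ⟨t, ?_, ?_⟩
    · show (1 : W)⁻¹ * t ∈ Subgroup.closure I
      simpa using Subgroup.subset_closure htI
    · simpa using D_self cs ht
  · exact ⟨1, mem_coset_self 1 I, by simpa using D_one cs t⟩

/-- the face `F_I` of the fundamental chamber, as a convex subcomplex -/
def faceC (I : Set W) (hI : I ⊂ simples cs) : ConvexSubcomplex cs :=
  mkConvex cs (faceRoots cs I) (fun _ h => h.1) ⟨_, mk_mem_faceRoots cs hI⟩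

omit [Finite W] in
theorem faceC_lt {I : Set W} {s : W} (hI : I ⊂ simples cs) (hI' : insert s I ⊂ simples cs)
    (hs : s ∉ I) : faceC cs (insert s I) hI' < faceC cs I hI := by
  refine lt_of_le_not_ge ?_ ?_
  · intro σ hσ
    rintro ⟨t, b⟩ ⟨ht, hb⟩
    exact hσ ⟨t, b⟩ ⟨ht, fun h => Set.mem_insert_of_mem _ (hb h)⟩
  · intro hle
    have h1 := hle (mk_mem_faceRoots cs hI)
    have hsS : s ∈ simples cs := hI'.subset (Set.mem_insert _ _)
    have hsr := isReflection_of_mem_simples cs hsS
    have h2 := h1 ⟨s, false⟩ ⟨hsr, fun _ => Set.mem_insert _ _⟩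
    obtain ⟨x, hx, hDx⟩ := (mem_root_iff cs hsr false _).mp h2
    have hx' : x ∈ Subgroup.closure I := by
      have : (1 : W)⁻¹ * x ∈ Subgroup.closure I := hx
      simpa using this
    have h3 := mem_closure_of_D cs hI.subset hx' s (by rw [hDx]; simp)
    exact hs (mem_of_simple_mem_closure cs hI.subset hsS h3)

theorem height_faceC : ∀ (m : ℕ) (I : Set W) (hI : I ⊂ simples cs),
    (simples cs \ I).ncard = m + 1 → (m : ℕ∞) ≤ Order.height (faceC cs I hI) := by
  intro m
  induction m with
  | zero => intro I hI _; simp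
  | succ m ih =>
    intro I hI hcard
    have hpos : (simples cs \ I).Nonempty := by
      rw [← Set.ncard_pos (Set.toFinite _)]; omega
    obtain ⟨s, hs, hsI⟩ := hpos
    have hdiff : simples cs \ insert s I = (simples cs \ I) \ {s} := by
      ext x; simp only [Set.mem_sdiff, Set.mem_insert_iff, Set.mem_singleton_iff]; tauto
    have hcard' : (simples cs \ insert s I).ncard = m + 1 := by
      rw [hdiff, Set.ncard_sdiff_singleton_of_mem (show s ∈ simples cs \ I from ⟨hs, hsI⟩)]; omega
    have hI' : insert s I ⊂ simples cs := by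
      refine ⟨Set.insert_subset hs hI.subset, ?_⟩
      intro hcon
      have : simples cs \ insert s I = ∅ := Set.sdiff_eq_empty.mpr hcon
      rw [this] at hcard'
      simp at hcard'
    have h1 := ih _ hI' hcard'
    have h2 := Order.height_add_one_le (faceC_lt cs hI hI' hsI)
    calc ((m + 1 : ℕ) : ℕ∞) = (m : ℕ∞) + 1 := by push_cast; rfl
      _ ≤ Order.height (faceC cs (insert s I) hI') + 1 := by gcongr
      _ ≤ _ := h2

omit [Finite W] in
theorem mkSimplex_lt {I : Set W} {s : W} (hI : I ⊂ simples cs) (hI' : insert s I ⊂ simples cs)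
    (hs : s ∉ I) : mkSimplex cs 1 (insert s I) hI' < mkSimplex cs 1 I hI := by
  refine lt_of_le_of_ne ?_ ?_
  · show coset 1 I ⊆ coset 1 (insert s I)
    intro x hx
    exact Subgroup.closure_mono (Set.subset_insert s I) hx
  · intro heq
    apply hs
    have h1 : typ cs (mkSimplex cs 1 I hI) = I := typ_eq cs _ hI.subset rfl
    have h2 : typ cs (mkSimplex cs 1 (insert s I) hI') = insert s I := typ_eq cs _ hI'.subset rfl
    rw [← h1, ← heq, h2]
    exact Set.mem_insert _ _

theorem height_mkSimplex : ∀ (m : ℕ) (I : Set W) (hI : I ⊂ simples cs),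
    (simples cs \ I).ncard = m + 1 → (m : ℕ∞) ≤ Order.height (mkSimplex cs 1 I hI) := by
  intro m
  induction m with
  | zero => intro I hI _; simp
  | succ m ih =>
    intro I hI hcard
    have hpos : (simples cs \ I).Nonempty := by
      rw [← Set.ncard_pos (Set.toFinite _)]; omega
    obtain ⟨s, hs, hsI⟩ := hpos
    have hdiff : simples cs \ insert s I = (simples cs \ I) \ {s} := by
      ext x; simp only [Set.mem_sdiff, Set.mem_insert_iff, Set.mem_singleton_iff]; tauto
    have hcard' : (simples cs \ insert s I).ncard = m + 1 := by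
      rw [hdiff, Set.ncard_sdiff_singleton_of_mem (show s ∈ simples cs \ I from ⟨hs, hsI⟩)]; omega
    have hI' : insert s I ⊂ simples cs := by
      refine ⟨Set.insert_subset hs hI.subset, ?_⟩
      intro hcon
      have : simples cs \ insert s I = ∅ := Set.sdiff_eq_empty.mpr hcon
      rw [this] at hcard'
      simp at hcard'
    have h1 := ih _ hI' hcard'
    have h2 := Order.height_add_one_le (mkSimplex_lt cs hI hI' hsI)
    calc ((m + 1 : ℕ) : ℕ∞) = (m : ℕ∞) + 1 := by push_cast; rfl
      _ ≤ Order.height (mkSimplex cs 1 (insert s I) hI') + 1 := by gcongr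
      _ ≤ _ := h2

/-- roots of the reflections outside a given set, positive side -/
def posRoots (T : Set W) : Set (W × Bool) := {a | cs.IsReflection a.1 ∧ a.2 = true ∧ a.1 ∉ T}

omit [Finite W] in
theorem chamber_mem_posRoots {T : Set W} {v : W} (hS : ∅ ⊂ simples cs)
    (hv : ∀ t, cs.IsReflection t → t ∉ T → D cs v t = 0) :
    ∀ a ∈ posRoots cs T, mkSimplex cs v ∅ hS ∈ root cs a.1 a.2 := by
  rintro ⟨t, b⟩ ⟨ht, hb, htT⟩
  simp only at ht hb htT
  subst hb
  rw [mem_root_iff cs ht]
  exact ⟨v, mem_coset_self v ∅, by simpa using hv t ht htT⟩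

omit [Finite W] in
theorem eq_of_mem_coset_empty {v x : W} (h : x ∈ coset v ∅) : x = v := by
  have h1 : v⁻¹ * x ∈ Subgroup.closure (∅ : Set W) := h
  rw [Subgroup.closure_empty, Subgroup.mem_bot, inv_mul_eq_one] at h1
  exact h1.symm

theorem lower (hS : ∅ ⊂ simples cs) :
    ((((simples cs).ncard - 1) + Nat.card {t : W // cs.IsReflection t} : ℕ) : WithBot ℕ∞) ≤
      Order.krullDim (ConvexSubcomplex cs) := by
  classical
  obtain ⟨w0, hw0⟩ := Finite.exists_max (fun w : W => cs.length w)
  obtain ⟨ω, hω, hw0ω⟩ := cs.exists_isReduced w0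
  have hall : ∀ t, cs.IsReflection t → t ∈ cs.leftInvSeq ω := by
    intro t ht
    apply mem_leftInvSeq_of_D
    have h1 : D cs w0 t = 1 := by
      rw [D_eq_one_iff cs w0 ht]
      have h2 := hw0 (t * w0)
      have h3 := ht.length_mul_right_ne w0
      omega
    rw [← hw0ω, h1]
    exact one_ne_zero
  have hnodup : (cs.leftInvSeq ω).Nodup := hω.nodup_leftInvSeq
  have hcardle : Nat.card {t : W // cs.IsReflection t} ≤ (cs.leftInvSeq ω).length := by
    have h1 : Nat.card {t : W // cs.IsReflection t} = ({t : W | cs.IsReflection t}).ncard := rfl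
    rw [h1]
    have h2 : {t : W | cs.IsReflection t} ⊆ ((cs.leftInvSeq ω).toFinset : Set W) := by
      intro t ht
      simpa using hall t ht
    calc ({t : W | cs.IsReflection t}).ncard ≤ ((cs.leftInvSeq ω).toFinset : Set W).ncard :=
          Set.ncard_le_ncard h2 (Set.toFinite _)
      _ = (cs.leftInvSeq ω).toFinset.card := Set.ncard_coe_finset _
      _ ≤ _ := List.toFinset_card_le _
  set L := cs.leftInvSeq ω with hL
  have hlen : L.length = ω.length := cs.length_leftInvSeq ω
  -- vanishing of D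
  have hD0 : ∀ k, ∀ t, cs.IsReflection t → t ∉ {x | x ∈ L.take k} →
      D cs (cs.wordProd (ω.take k)) t = 0 := by
    intro k t _ hk
    by_contra hne
    apply hk
    have := mem_leftInvSeq_of_D cs (ω.take k) t hne
    rw [cs.leftInvSeq_take] at this
    exact this
  let C : ℕ → ConvexSubcomplex cs := fun k =>
    mkConvex cs (posRoots cs {x | x ∈ L.take k}) (fun _ h => h.1)
      ⟨_, chamber_mem_posRoots cs hS (hD0 k)⟩
  have hstep : ∀ k, k < L.length → C k < C (k + 1) := by
    intro k hk
    refine lt_of_le_not_ge ?_ ?_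
    · intro σ hσ
      rintro ⟨t, b⟩ ⟨ht, hb, htT⟩
      refine hσ ⟨t, b⟩ ⟨ht, hb, fun h => htT ?_⟩
      exact List.take_subset_take_left _ (Nat.le_succ k) h
    · intro hle
      have h1 := hle (chamber_mem_posRoots cs hS (hD0 (k + 1)))
      set t := L[k] with htdef
      have htL : t ∈ L := List.getElem_mem hk
      have htr : cs.IsReflection t := cs.isReflection_of_mem_leftInvSeq ω htL
      have htk : t ∉ L.take k := by
        intro hcon
        rw [List.mem_take_iff_getElem] at hcon
        obtain ⟨j, hj, hje⟩ := hcon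
        have := (List.Nodup.getElem_inj_iff hnodup).mp hje
        omega
      have h2 := h1 ⟨t, true⟩ ⟨htr, rfl, htk⟩
      obtain ⟨x, hx, hDx⟩ := (mem_root_iff cs htr true _).mp h2
      have hx' := eq_of_mem_coset_empty hx
      rw [hx'] at hDx
      have htk1 : t ∈ cs.leftInvSeq (ω.take (k + 1)) := by
        rw [cs.leftInvSeq_take, List.mem_take_iff_getElem]
        exact ⟨k, by rw [cs.length_leftInvSeq]; omega, rfl⟩
      have hred : cs.IsReduced (ω.take (k + 1)) := hω.take (k + 1)
      have h3 := (cs.isLeftInversion_of_mem_leftInvSeq hred htk1).2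
      have h4 := (D_eq_one_iff cs _ htr).mpr h3
      rw [h4] at hDx
      simp at hDx
  have hnpos : 0 < (simples cs).ncard := by
    rw [Set.ncard_pos (Set.toFinite _)]
    obtain ⟨x, hx, _⟩ := Set.exists_of_ssubset hS
    exact ⟨x, hx⟩
  have hbase : (((simples cs).ncard - 1 : ℕ) : ℕ∞) ≤ Order.height (C 0) := by
    have h1 := height_faceC cs ((simples cs).ncard - 1) ∅ hS (by rw [Set.sdiff_empty]; omega)
    have h2 : faceC cs ∅ hS = C 0 := by
      apply Subtype.ext
      show {σ | ∀ a ∈ faceRoots cs ∅, σ ∈ root cs a.1 a.2} =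
        {σ | ∀ a ∈ posRoots cs {x | x ∈ L.take 0}, σ ∈ root cs a.1 a.2}
      have h3 : faceRoots cs ∅ = posRoots cs {x | x ∈ L.take 0} := by
        ext ⟨t, b⟩
        unfold faceRoots posRoots
        cases b <;> simp
      rw [h3]
    rw [← h2]; exact h1
  have hind : ∀ k, k ≤ L.length →
      ((((simples cs).ncard - 1) + k : ℕ) : ℕ∞) ≤ Order.height (C k) := by
    intro k
    induction k with
    | zero => intro _; simpa using hbase
    | succ k ih =>
      intro hk
      have h1 := ih (by omega)
      have h2 := Order.height_add_one_le (hstep k (by omega))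
      calc ((((simples cs).ncard - 1) + (k + 1) : ℕ) : ℕ∞)
          = ((((simples cs).ncard - 1) + k : ℕ) : ℕ∞) + 1 := by push_cast; ring
        _ ≤ Order.height (C k) + 1 := by gcongr
        _ ≤ _ := h2
  have hfin := hind L.length le_rfl
  have h5 := Order.height_le_krullDim (C L.length)
  refine le_trans ?_ h5
  refine le_trans ?_ (WithBot.coe_le_coe.mpr hfin)
  have h6 : ((simples cs).ncard - 1) + Nat.card {t : W // cs.IsReflection t} ≤
      ((simples cs).ncard - 1) + L.length := by omega
  rw [← WithBot.coe_natCast]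
  exact WithBot.coe_le_coe.mpr (Nat.cast_le.mpr h6)

theorem dim_eq (hS : ∅ ⊂ simples cs) :
    Order.krullDim (Simplex cs) = (((simples cs).ncard - 1 : ℕ) : WithBot ℕ∞) := by
  apply le_antisymm (dim_le cs)
  have hnpos : 0 < (simples cs).ncard := by
    rw [Set.ncard_pos (Set.toFinite _)]
    obtain ⟨x, hx, _⟩ := Set.exists_of_ssubset hS
    exact ⟨x, hx⟩
  have h1 := height_mkSimplex cs ((simples cs).ncard - 1) ∅ hS (by rw [Set.sdiff_empty]; omega)
  have h5 := Order.height_le_krullDim (mkSimplex cs 1 ∅ hS)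
  refine le_trans ?_ h5
  rw [← WithBot.coe_natCast]
  exact WithBot.coe_le_coe.mpr h1

end

/-- For every finite Coxeter system `(W, S)`, the poset `Y(Σ)` of nonempty convex subcomplexes of
the Coxeter complex `Σ` has dimension `dim Σ + N`, where `N` is the number of reflections;
moreover `dim Σ = |S| - 1` if `S` is nonempty. -/
theorem result {B W : Type*} [Group W] [Finite W] {M : CoxeterMatrix B}
    (cs : CoxeterSystem M W) :
    Order.krullDim (ConvexSubcomplex cs) =
      Order.krullDim (Simplex cs) + (Nat.card {t : W // cs.IsReflection t} : WithBot ℕ∞) ∧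
    (Nonempty B → Order.krullDim (Simplex cs) = (((simples cs).ncard - 1 : ℕ) : WithBot ℕ∞)) := by
  have hS : Nonempty B → ∅ ⊂ simples cs := by
    rintro ⟨i⟩
    refine ⟨Set.empty_subset _, fun h => ?_⟩
    exact absurd (h ⟨i, rfl⟩) (Set.notMem_empty _)
  refine ⟨?_, fun h => dim_eq cs (hS h)⟩
  rcases isEmpty_or_nonempty B with hB | hB
  · have hempty : IsEmpty (Simplex cs) := by
      constructor
      intro σ
      obtain ⟨w, I, hI, _⟩ := σ.isSimplex
      obtain ⟨x, ⟨i, _⟩, _⟩ := Set.exists_of_ssubset hI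
      exact hB.elim i
    have hempty' : IsEmpty (ConvexSubcomplex cs) := by
      constructor
      rintro ⟨C, ⟨σ, _⟩, _⟩
      exact hempty.elim σ
    rw [Order.krullDim_eq_bot, Order.krullDim_eq_bot]
    simp
  · have hS := hS hB
    rw [dim_eq cs hS]
    apply le_antisymm
    · have := upper cs
      push_cast at this
      simpa using this
    · have := lower cs hS
      push_cast at this
      simpa using this

end Pool.Agent.Results.MP_70010f_co.CoxeterConvexDim
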